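import Pool.Agent.Helper92.TG.GoalsX
import Pool.Agent.Helper9.TN.TAUT

/-!
# Project TG (MP_a41896_nt), packet TG-EMB: embeddings with a given image of the generic point
-/

set_option autoImplicit false
set_option linter.unusedSectionVars false

open Polynomial

namespace Pool.Agent.Helper66.TG.EMB

open WeierstrassCurve
open Pool.Agent.Helper29.BL Pool.Agent.Helper42.SG
open Pool.Agent.Helper60.T3 (WL IP)
open Pool.Agent.Helper92.TG (mp)
open Pool.Agent.Helper9.TN.TAUT (alg_range sgn ps_sq)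

noncomputable section

/-- a homomorphism with a given value at a transcendental element -/
theorem lift1 {K F F' : Type} [Field K] [Field F] [Algebra K F] [Field F'] [IsAlgClosed F']
    [Algebra K F'] {x : F} {x' : F'} (hx : Transcendental K x) (hx' : Transcendental K x')
    (ha : ∀ z : F, IsAlgebraic (aeval x : K[X] →ₐ[K] F).range z) :
    ∃ j : F →ₐ[K] F', ∀ p : K[X], j (aeval x p) = aeval x' p := by
  have hi := transcendental_iff_injective.mp hx
  have hi' := transcendental_iff_injective.mp hx'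
  let f : K[X] ≃ₐ[K] (aeval x : K[X] →ₐ[K] F).range := AlgEquiv.ofInjective _ hi
  let φ : (aeval x : K[X] →ₐ[K] F).range →ₐ[K] F' := (aeval x' : K[X] →ₐ[K] F').comp f.symm
  have hφ : Function.Injective φ := hi'.comp f.symm.injective
  let : Algebra (aeval x : K[X] →ₐ[K] F).range F' := φ.toRingHom.toAlgebra
  have h1 : FaithfulSMul (aeval x : K[X] →ₐ[K] F).range F' :=
    (faithfulSMul_iff_algebraMap_injective _ _).mpr hφ
  have h2 : Algebra.IsAlgebraic (aeval x : K[X] →ₐ[K] F).range F := ⟨ha⟩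
  let j : F →ₐ[(aeval x : K[X] →ₐ[K] F).range] F' := IsAlgClosed.lift
  have hj : ∀ p : K[X], j (aeval x p) = aeval x' p := by
    intro p
    have h3 := j.commutes (f p)
    have h4 : algebraMap (aeval x : K[X] →ₐ[K] F).range F (f p) = aeval x p := rfl
    have h5 : algebraMap (aeval x : K[X] →ₐ[K] F).range F' (f p) = aeval x' p := by
      show aeval x' (f.symm (f p)) = aeval x' p
      rw [f.symm_apply_apply]
    rw [h4, h5] at h3
    exact h3
  refine ⟨{ j.toRingHom with commutes' := fun c => ?_ }, hj⟩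
  have h3 := hj (C c)
  rw [aeval_C, aeval_C] at h3
  exact h3

/-- the polynomial `4 T³ + b₂ T² + 2 b₄ T + b₆` -/
def Bk {K : Type} [Field K] (W : Affine K) : K[X] :=
  C 4 * X ^ 3 + C W.b₂ * X ^ 2 + C (2 * W.b₄) * X + C W.b₆

theorem Bk_deg {K : Type} [Field K] [CharZero K] (W : Affine K) : (Bk W).natDegree = 3 := by
  have h4 : (4 : K) ≠ 0 := by
    have h5 : ((4 : ℕ) : K) ≠ 0 := Nat.cast_ne_zero.mpr (by norm_num)
    exact_mod_cast h5
  unfold Bk
  compute_degree!

theorem Bk_aeval {K F : Type} [Field K] [Field F] [Algebra K F] (W : Affine K) (z : F) :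
    aeval z (Bk W) = Bf (WL F W) z := by
  unfold Bk Bf
  have e2 : (WL F W).b₂ = algebraMap K F W.b₂ := WeierstrassCurve.map_b₂ _ _
  have e4 : (WL F W).b₄ = algebraMap K F W.b₄ := WeierstrassCurve.map_b₄ _ _
  have e6 : (WL F W).b₆ = algebraMap K F W.b₆ := WeierstrassCurve.map_b₆ _ _
  rw [e2, e4, e6]
  simp only [map_add, map_mul, map_pow, aeval_C, aeval_X, map_ofNat]

/-- a point is determined by its two coordinates -/
theorem mp_eq {K : Type} [Field K] [CharZero K] {W : Affine K} {F F' : Type} [Field F]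
    [DecidableEq F] [Algebra K F] [Field F'] [DecidableEq F'] [Algebra K F'] (j : F →ₐ[K] F')
    {P : (WL F W).Point} {P' : (WL F' W).Point} (hP : P ≠ 0) (hP' : P' ≠ 0)
    (hx : j (xc P) = xc P') (hp : j (ps P) = ps P') : mp j P = P' := by
  have : CharZero F' := charZero_of_injective_algebraMap (algebraMap K F').injective
  rcases P with _ | ⟨x, y, h⟩
  · exact absurd rfl hP
  rcases P' with _ | ⟨x', y', h'⟩
  · exact absurd rfl hP'
  have hx' : j x = x' := hx
  have hp' : j (2 * y + (WL F W).a₁ * x + (WL F W).a₃) =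
    2 * y' + (WL F' W).a₁ * x' + (WL F' W).a₃ := hp
  have c1 : j (WL F W).a₁ = (WL F' W).a₁ := j.commutes W.a₁
  have c3 : j (WL F W).a₃ = (WL F' W).a₃ := j.commutes W.a₃
  rw [map_add, map_add, map_mul, map_mul, map_ofNat, c1, c3, hx'] at hp'
  have hy : j y = y' := by
    have h2 : (2 : F') ≠ 0 := two_ne_zero
    apply mul_left_cancel₀ h2
    linear_combination hp'
  subst hx' hy
  rfl

theorem t : Pool.Agent.Helper92.TG.EMB := by
  intro K _ _ W _ F F' _ _ _ _ _ _ _ _ P P' hx hx' ha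
  have hP : P ≠ 0 := by
    rintro rfl
    exact hx (isAlgebraic_zero)
  have hP' : P' ≠ 0 := by
    rintro rfl
    exact hx' (isAlgebraic_zero)
  obtain ⟨j, hj⟩ := lift1 hx hx' (fun z => alg_range (ha z))
  have hjx : j (xc P) = xc P' := by
    have := hj X
    rwa [aeval_X, aeval_X] at this
  have h1 : j (ps P) ^ 2 = ps P' ^ 2 := by
    rw [← map_pow, ps_sq P hP, ps_sq P' hP', ← Bk_aeval, ← Bk_aeval, hj]
  rcases sq_eq_sq_iff_eq_or_eq_neg.mp h1 with h | h
  · exact ⟨j, mp_eq j hP hP' hjx h⟩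
  · obtain ⟨σ, hσ1, hσ2⟩ := sgn (ψ := ps P) hx ha (Bk W) (by rw [Bk_deg]; exact ⟨1, rfl⟩)
      (by rw [Bk_aeval]; exact ps_sq P hP)
    refine ⟨j.comp σ.toAlgHom, mp_eq _ hP hP' ?_ ?_⟩
    · show j (σ (xc P)) = xc P'
      rw [hσ1, hjx]
    · show j (σ (ps P)) = ps P'
      rw [hσ2, map_neg, h, neg_neg]

end

end Pool.Agent.Helper66.TG.EMB
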